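import Pool.Agent.H66.IP.TB

/-!
# Board ipf_modules (MP_0f8dca_lc), row BLG: a game does not see a block
-/

set_option autoImplicit false

namespace Pool.Agent.H10.IPF

open Finset Pool.Agent.H6.NB Pool.Agent.H70.EH Pool.Agent.H78.XQ Pool.Agent.H66.IP

/-! ## Numbers -/

theorem blg_pow (m : ℕ) (h : 31 ≤ m) : m ^ 5 ≤ 2 ^ m := by
  induction m, h using Nat.le_induction with
  | base => norm_num
  | succ m hm ih =>
    have h1 : (m + 1) ^ 5 ≤ 2 * m ^ 5 := by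
      have h2 : 5 * m ^ 4 + 10 * m ^ 3 + 10 * m ^ 2 + 5 * m + 1 ≤ m ^ 5 := by
        have e1 : m ^ 3 ≤ m ^ 4 := Nat.pow_le_pow_right (by omega) (by norm_num)
        have e2 : m ^ 2 ≤ m ^ 4 := Nat.pow_le_pow_right (by omega) (by norm_num)
        have e3 : m ≤ m ^ 4 := by
          calc m = m ^ 1 := (pow_one m).symm
            _ ≤ m ^ 4 := Nat.pow_le_pow_right (by omega) (by norm_num)
        have e4 : 1 ≤ m ^ 4 := Nat.one_le_pow _ _ (by omega)
        have e5 : 31 * m ^ 4 ≤ m ^ 5 := by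
          rw [pow_succ m 4, mul_comm]
          exact Nat.mul_le_mul_left _ hm
        omega
      have h3 : (m + 1) ^ 5 = m ^ 5 + (5 * m ^ 4 + 10 * m ^ 3 + 10 * m ^ 2 + 5 * m + 1) := by ring
      omega
    rw [pow_succ 2 m]
    omega

theorem blg_R {l : ℕ} (h : 128000 ≤ l) :
    8 * (512 * (10 * l + 100 + 3) ^ 2 * l) + 42 ≤ 2 ^ (l - l / 2) := by
  obtain ⟨m, hm⟩ : ∃ m, m = l - l / 2 := ⟨_, rfl⟩
  rw [← hm]
  have h1 : l ≤ 2 * m := by omega
  have h2 : 64000 ≤ m := by omega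
  refine le_trans ?_ (blg_pow m (by omega))
  have h3 : 10 * l + 100 + 3 ≤ 21 * m := by omega
  have h4 : 8 * (512 * (10 * l + 100 + 3) ^ 2 * l) ≤ 8 * (512 * (21 * m) ^ 2 * (2 * m)) := by
    gcongr
  have h5 : 8 * (512 * (21 * m) ^ 2 * (2 * m)) = 3612672 * m ^ 3 := by ring
  have h6 : 3612673 * m ^ 3 ≤ m ^ 5 := by
    have : m ^ 5 = m ^ 2 * m ^ 3 := by ring
    rw [this]
    refine Nat.mul_le_mul_right _ ?_
    calc 3612673 ≤ 64000 ^ 2 := by norm_num
      _ ≤ m ^ 2 := Nat.pow_le_pow_left h2 2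
  have h7 : 42 ≤ m ^ 3 := by
    calc 42 ≤ 64000 ^ 3 := by norm_num
      _ ≤ m ^ 3 := Nat.pow_le_pow_left h2 3
  omega

theorem blg_num {r l q R n : ℕ} (h : Sz r l q R n) :
    (R : ℝ) / 2 ^ l ≤ 1 / 8 ∧
    (2 : ℝ) ^ (2 * l) * (4003 / 2 ^ (q / 4)) ≤ 1 / 2 / 2 ^ (l / 2) ∧
    1 / 2 ^ l + (4 * ((R : ℝ) / 2 ^ l + 1 / √(2 ^ n)) + 16 / 2 ^ n) ≤ 1 / 2 / 2 ^ (l / 2) := by
  have hl : 128000 ≤ l := by
    have h1 := h.r_ge
    have h2 := h.l_ge
    have h3 : 20 ^ 3 ≤ r ^ 3 := Nat.pow_le_pow_left h1 3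
    omega
  have hR : 8 * R + 42 ≤ 2 ^ (l - l / 2) := by
    rw [h.R_eq, h.q_eq]
    exact blg_R hl
  have hRr : (8 * (R : ℝ) + 42) ≤ 2 ^ (l - l / 2) := by exact_mod_cast hR
  have hsplit : (2 : ℝ) ^ l = 2 ^ (l - l / 2) * 2 ^ (l / 2) := by
    rw [← pow_add]
    congr 1
    omega
  have hp : (0 : ℝ) < 2 ^ l := by positivity
  have hp2 : (0 : ℝ) < 2 ^ (l / 2) := by positivity
  refine ⟨?_, ?_, ?_⟩
  · rw [div_le_div_iff₀ hp (by norm_num)]
    have h1 : (2 : ℝ) ^ (l - l / 2) ≤ 2 ^ l := pow_le_pow_right₀ (by norm_num) (by omega)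
    linarith
  · have hq : q / 4 = 2 * l + l / 2 + 13 + (q / 4 - (2 * l + l / 2 + 13)) := by
      have := h.q_eq
      omega
    rw [hq, pow_add, pow_add, pow_add]
    have h1 : (1 : ℝ) ≤ 2 ^ (q / 4 - (2 * l + l / 2 + 13)) := one_le_pow₀ (by norm_num)
    have h2 : (0 : ℝ) < 2 ^ (2 * l) := by positivity
    rw [← mul_div_assoc, div_le_div_iff₀ (by positivity) (by positivity)]
    have h3 : (4003 : ℝ) ≤ 1 / 2 * (2 ^ 13 * 2 ^ (q / 4 - (2 * l + l / 2 + 13))) := by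
      norm_num
      linarith
    calc (2 : ℝ) ^ (2 * l) * 4003 * 2 ^ (l / 2) = 2 ^ (2 * l) * 2 ^ (l / 2) * 4003 := by ring
      _ ≤ 2 ^ (2 * l) * 2 ^ (l / 2) *
          (1 / 2 * (2 ^ 13 * 2 ^ (q / 4 - (2 * l + l / 2 + 13)))) := by gcongr
      _ = 1 / 2 * (2 ^ (2 * l) * 2 ^ (l / 2) * 2 ^ 13 * 2 ^ (q / 4 - (2 * l + l / 2 + 13))) := by
          ring
  · have hR1 : 1 ≤ R := by
      rw [h.R_eq]
      have : 0 < 512 * (q + 3) ^ 2 * l := by positivity
      omega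
    have hn : 2 * l ≤ n := by
      rw [h.n_eq]
      calc 2 * l ≤ 2 * l + 3 * q := by omega
        _ = 1 * (2 * l + 3 * q) := by ring
        _ ≤ R * (2 * l + 3 * q) := Nat.mul_le_mul_right _ hR1
    have hn2 : (2 : ℝ) ^ (2 * l) ≤ 2 ^ n := pow_le_pow_right₀ (by norm_num) hn
    have hsq : (2 : ℝ) ^ l ≤ √(2 ^ n) := by
      rw [show (2 : ℝ) ^ l = √(2 ^ (2 * l)) by
        rw [pow_mul', Real.sqrt_sq hp.le]]
      exact Real.sqrt_le_sqrt hn2
    have hln : (2 : ℝ) ^ l ≤ 2 ^ n := pow_le_pow_right₀ (by norm_num) (by omega)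
    have e1 : 1 / √((2 : ℝ) ^ n) ≤ 1 / 2 ^ l := one_div_le_one_div_of_le hp hsq
    have e2 : 16 / (2 : ℝ) ^ n ≤ 16 / 2 ^ l := div_le_div_of_nonneg_left (by norm_num) hp hln
    have e3 : 1 / (2 : ℝ) ^ l + (4 * ((R : ℝ) / 2 ^ l + 1 / 2 ^ l) + 16 / 2 ^ l) =
        (4 * R + 21) / 2 ^ l := by ring
    have e4 : (4 * (R : ℝ) + 21) / 2 ^ l ≤ 1 / 2 / 2 ^ (l / 2) := by
      rw [div_le_div_iff₀ hp hp2, hsplit]
      calc (4 * (R : ℝ) + 21) * 2 ^ (l / 2) = 1 / 2 * ((8 * R + 42) * 2 ^ (l / 2)) := by ring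
        _ ≤ 1 / 2 * (2 ^ (l - l / 2) * 2 ^ (l / 2)) := by gcongr
    linarith

/-! ## The inner sums -/

theorem blg_one (hMUV : Pool.Agent.H70.EH.T_MUV) {U : Type} [Fintype U] [DecidableEq U]
    (b : Bool) (q : ℕ) : ∑ P : U → VV q → Bool, ∏ u, mv b q (P u) = 1 := by
  have h1 := Finset.prod_univ_sum (fun _ : U => (univ : Finset (VV q → Bool)))
    (fun _ p => mv b q p)
  rw [Fintype.piFinset_univ] at h1
  rw [← h1]
  refine Finset.prod_eq_one fun u _ => ?_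
  exact (hMUV b q).2.1

theorem blg_inner {q l R n : ℕ} {b : Bool} {P : (Fin (2 * l) → Bool) → VV q → Bool}
    (hS : SayX q l b P) {W : ℕ}
    (hW : (W : ℝ) / 2 ^ n = (if b then 1 / 2 else 3 / 2) - kap q R P)
    (f : ((Fin n → Bool) → Bool) → ℝ) :
    ∑ h, mB q l R n b (P, h) * f h = (∏ u, mv b q (P u)) * wm (fun _ => none) W f := by
  classical
  have h3 : ∀ h : (Fin n → Bool) → Bool, mB q l R n b (P, h) * f h =
      if h ∈ ws (fun _ : Fin n → Bool => none) W then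
        (∏ u, mv b q (P u)) * (f h / (ws (fun _ : Fin n → Bool => none) W).card) else 0 := by
    intro h
    have h4 : h ∈ ws (fun _ : Fin n → Bool => none) W ↔ nt h = W := by
      unfold ws
      rw [Finset.mem_filter]
      constructor
      · exact fun h5 => h5.2.2
      · intro h5
        refine ⟨Finset.mem_univ _, ?_, h5⟩
        intro v c hc
        exact absurd hc (by simp)
    have h5 : OkB q l R n b (P, h) ↔ nt h = W := by
      unfold OkB Fit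
      constructor
      · rintro ⟨-, h6⟩
        rw [← hW] at h6
        have h7 : (0 : ℝ) < 2 ^ n := by positivity
        have h8 : (nt h : ℝ) = W := by
          rw [div_left_inj' h7.ne'] at h6
          exact h6
        exact_mod_cast h8
      · intro h6
        refine ⟨hS, ?_⟩
        rw [← hW, h6]
    unfold mB
    by_cases h6 : nt h = W
    · rw [if_pos (h5.2 h6), if_pos (h4.2 h6)]
      dsimp only
      rw [h6]
      ring
    · rw [if_neg (fun h7 => h6 (h5.1 h7)), if_neg (fun h7 => h6 (h4.1 h7)), zero_mul]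
  simp_rw [h3]
  rw [Finset.sum_ite_mem, Finset.univ_inter, ← Finset.mul_sum, ← Finset.sum_div]
  rfl

theorem blg_mn_abs {V : Type} [Fintype V] [DecidableEq V] {T : Type} [Fintype T]
    (a b : T → ℝ) (f : T → (V → Bool) → ℝ) (η : ℝ)
    (h : ∀ y, |∑ p, a p * f p y - ∑ p, b p * f p y| ≤ η) :
    |∑ p, a p * mn (f p) - ∑ p, b p * mn (f p)| ≤ η := by
  have hc : (0 : ℝ) < 2 ^ Fintype.card V := by positivity
  have key : ∀ a : T → ℝ, ∑ p, a p * mn (f p) =
      (∑ y, ∑ p, a p * f p y) / 2 ^ Fintype.card V := by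
    intro a
    rw [Finset.sum_comm, Finset.sum_div]
    refine Finset.sum_congr rfl fun p _ => ?_
    unfold mn
    rw [← Finset.mul_sum]
    ring
  rw [key, key, ← sub_div, ← Finset.sum_sub_distrib, abs_div, abs_of_pos hc, div_le_iff₀ hc]
  refine (Finset.abs_sum_le_sum_abs _ _).trans ?_
  refine (Finset.sum_le_sum fun y _ => h y).trans ?_
  rw [Finset.sum_const, Finset.card_univ, nsmul_eq_mul]
  have : Fintype.card (V → Bool) = 2 ^ Fintype.card V := by simp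
  rw [this]
  push_cast
  linarith

theorem pf_BLG (hEVS : T_EVS) (hONC : T_ONC) (hCPU : T_CPU) (hSYX : T_SYX) (hWEX : T_WEX)
    (hGWT : T_GWT) (hMUV : Pool.Agent.H70.EH.T_MUV) : T_BLG := by
  classical
  intro r l q R n hSz b k d w F hk hw hF1 hF2
  obtain ⟨n1, n2, n3⟩ := blg_num hSz
  have hq : 10 ≤ q := by
    have := hSz.q_eq
    omega
  have hcard : Fintype.card (Fin n → Bool) = 2 ^ n := by simp
  have hmv0 : ∀ (b : Bool) (P : (Fin (2 * l) → Bool) → VV q → Bool), 0 ≤ ∏ u, mv b q (P u) :=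
    fun b P => Finset.prod_nonneg fun u _ => (hMUV b q).1 _
  have hF01 : ∀ c, 0 ≤ F c ∧ F c ≤ 1 := by
    rintro ⟨P, h⟩
    obtain ⟨t, -, ht⟩ := hF2 P
    obtain ⟨e1, e2, e3, -⟩ := hEVS _ 1 t h one_pos
    rw [ht]
    exact ⟨e1.trans e2, e3⟩
  set Fm : ((Fin (2 * l) → Bool) → VV q → Bool) → ℝ := fun P => mn fun h => F (P, h) with hFm
  have hFm01 : ∀ P, 0 ≤ Fm P ∧ Fm P ≤ 1 := by
    intro P
    have hc : (0 : ℝ) < 2 ^ Fintype.card (Fin n → Bool) := by positivity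
    simp only [hFm, mn]
    refine ⟨div_nonneg (Finset.sum_nonneg fun h _ => (hF01 _).1) hc.le, ?_⟩
    rw [div_le_one hc]
    refine (Finset.sum_le_sum fun h _ => (hF01 (P, h)).2).trans ?_
    rw [Finset.sum_const, Finset.card_univ, nsmul_eq_mul, mul_one]
    have : Fintype.card ((Fin n → Bool) → Bool) = 2 ^ Fintype.card (Fin n → Bool) := by simp
    rw [this]
    push_cast
    exact le_rfl
  set e2 : ℝ := 4 * w * ((R : ℝ) / 2 ^ l + 1 / √(2 ^ n)) + 16 / 2 ^ n with he2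
  have he20 : 0 ≤ e2 := by positivity
  -- step one
  have hinner : ∀ P, |∑ h, mB q l R n b (P, h) * F (P, h) - (∏ u, mv b q (P u)) * Fm P| ≤
      (∏ u, mv b q (P u)) * (if SayX q l b P then 0 else 1) + (∏ u, mv b q (P u)) * e2 := by
    intro P
    by_cases hS : SayX q l b P
    · obtain ⟨W, hW1, hW2, hW3⟩ := hWEX r l q R n hSz b P hS
      obtain ⟨t, ht1, ht⟩ := hF2 P
      rw [blg_inner hS hW1 (fun h => F (P, h)), if_pos hS, mul_zero, zero_add, ← mul_sub, abs_mul,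
        abs_of_nonneg (hmv0 b P)]
      refine mul_le_mul_of_nonneg_left ?_ (hmv0 b P)
      have h1 := hGWT (Fin n → Bool) W w ((R : ℝ) / 2 ^ l) t (by positivity) n1 ht1 (by
        rw [hcard]
        push_cast
        exact hW3)
      have h2 : (fun h => F (P, h)) = t.ev := funext ht
      simp only [hFm, h2]
      rw [hcard] at h1
      push_cast at h1
      exact h1
    · have h1 : ∑ h, mB q l R n b (P, h) * F (P, h) = 0 := by
        refine Finset.sum_eq_zero fun h _ => ?_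
        unfold mB
        rw [if_neg (fun h2 => hS h2.1), zero_mul]
      rw [h1, if_neg hS, zero_sub, abs_neg, mul_one, abs_of_nonneg
        (mul_nonneg (hmv0 b P) (hFm01 P).1)]
      have h2 : (∏ u, mv b q (P u)) * Fm P ≤ (∏ u, mv b q (P u)) * 1 :=
        mul_le_mul_of_nonneg_left (hFm01 P).2 (hmv0 b P)
      have h3 := mul_nonneg (hmv0 b P) he20
      linarith
  have hstep1 : |∑ c, mB q l R n b c * F c - ∑ P, (∏ u, mv b q (P u)) * Fm P| ≤
      1 / 2 ^ l + e2 := by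
    rw [Fintype.sum_prod_type, ← Finset.sum_sub_distrib]
    refine (Finset.abs_sum_le_sum_abs _ _).trans ?_
    refine (Finset.sum_le_sum fun P _ => hinner P).trans ?_
    rw [Finset.sum_add_distrib, ← Finset.sum_mul, blg_one hMUV, one_mul]
    have := hSYX r l q R n hSz b
    linarith
  -- step two
  have hstep2 : ∑ c, m0 q l n c * F c = ∑ P, (∏ u, mv false q (P u)) * Fm P := by
    rw [Fintype.sum_prod_type]
    refine Finset.sum_congr rfl fun P _ => ?_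
    simp only [hFm, mn, m0]
    rw [hcard, mul_div_assoc', Finset.mul_sum, Finset.sum_div]
    refine Finset.sum_congr rfl fun h _ => ?_
    ring
  -- step three
  have hstep3 : |∑ P, (∏ u, mv b q (P u)) * Fm P - ∑ P, (∏ u, mv false q (P u)) * Fm P| ≤
      Fintype.card (Fin (2 * l) → Bool) *
        (4003 * (k : ℝ) ^ 2 * (d + 1) * (w : ℝ) ^ 2 / 2 ^ (q / 4)) := by
    refine hCPU (Fin (2 * l) → Bool) (VV q → Bool) (mv b q) (mv false q) Fm _ (hMUV b q).1
      (hMUV false q).1 (hMUV b q).2.1 (hMUV false q).2.1 fun P u => ?_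
    refine blg_mn_abs (mv b q) (mv false q) (fun p h => F (Function.update P u p, h)) _
      fun h => ?_
    obtain ⟨t, ht1, ht2, ht3, ht⟩ := hF1 P u h
    simp only [ht]
    rcases b with _ | _
    · rw [sub_self, abs_zero]
      positivity
    · exact hONC q k d w t hq hk hw ht1 ht2 ht3
  -- the end
  have hcU : (Fintype.card (Fin (2 * l) → Bool) : ℝ) = 2 ^ (2 * l) := by
    have : Fintype.card (Fin (2 * l) → Bool) = 2 ^ (2 * l) := by simp
    rw [this]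
    push_cast
    rfl
  rw [hcU] at hstep3
  rw [hstep2]
  have hk1 : (1 : ℝ) ≤ k := by exact_mod_cast hk
  have hw1 : (1 : ℝ) ≤ w := by exact_mod_cast hw
  have hd0 : (0 : ℝ) ≤ d := Nat.cast_nonneg d
  set A : ℝ := (k : ℝ) ^ 2 * (d + 1) * (w : ℝ) ^ 2 with hA
  have hk2 : (1 : ℝ) ≤ (k : ℝ) ^ 2 := one_le_pow₀ hk1
  have hwA : (w : ℝ) ≤ A := by
    rw [hA]
    have h1 : (w : ℝ) ≤ (w : ℝ) ^ 2 := by nlinarith
    have h2 : 1 * 1 ≤ (k : ℝ) ^ 2 * (d + 1) := mul_le_mul hk2 (by linarith) (by norm_num)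
      (by linarith)
    calc (w : ℝ) ≤ 1 * 1 * (w : ℝ) ^ 2 := by linarith
      _ ≤ (k : ℝ) ^ 2 * (d + 1) * (w : ℝ) ^ 2 := by gcongr
  have hA1 : 1 ≤ A := hw1.trans hwA
  have h4 : 1 / 2 ^ l + e2 ≤ A * (1 / 2 / 2 ^ (l / 2)) := by
    refine le_trans ?_ (mul_le_mul_of_nonneg_left n3 (by linarith))
    have g1 : (0 : ℝ) ≤ 1 / 2 ^ l := by positivity
    have g2 : (0 : ℝ) ≤ (R : ℝ) / 2 ^ l + 1 / √(2 ^ n) := by positivity
    have g3 : (0 : ℝ) ≤ 16 / 2 ^ n := by positivity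
    have g4 := mul_le_mul_of_nonneg_right hwA g2
    have g5 := mul_le_mul_of_nonneg_right hA1 g1
    have g6 := mul_le_mul_of_nonneg_right hA1 g3
    rw [he2, mul_add, mul_add]
    linarith
  have h5 : (2 : ℝ) ^ (2 * l) * (4003 * (k : ℝ) ^ 2 * (d + 1) * (w : ℝ) ^ 2 / 2 ^ (q / 4)) ≤
      A * (1 / 2 / 2 ^ (l / 2)) := by
    have : (2 : ℝ) ^ (2 * l) * (4003 * (k : ℝ) ^ 2 * (d + 1) * (w : ℝ) ^ 2 / 2 ^ (q / 4)) =
        A * (2 ^ (2 * l) * (4003 / 2 ^ (q / 4))) := by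
      rw [hA]
      ring
    rw [this]
    exact mul_le_mul_of_nonneg_left n2 (by linarith)
  have h6 : A / 2 ^ (l / 2) = A * (1 / 2 / 2 ^ (l / 2)) + A * (1 / 2 / 2 ^ (l / 2)) := by ring
  rw [h6]
  have h7 := abs_sub_le (∑ c, mB q l R n b c * F c) (∑ P, (∏ u, mv b q (P u)) * Fm P)
    (∑ P, (∏ u, mv false q (P u)) * Fm P)
  linarith

end Pool.Agent.H10.IPF
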