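import Pool.Agent.H66.IP.TA

/-!
# Board ipf_modules, row GL2
-/

set_option autoImplicit false

namespace Pool.Agent.H10.IPF

open Finset Pool.Agent.H6.NB Pool.Agent.H66.IP

namespace GL2

variable {V : Type} [DecidableEq V]

theorem fp_fp (x : V) (y : V → Bool) : fp x (fp x y) = y := by
  unfold fp
  rw [Function.update_self, Bool.not_not, Function.update_idem, Function.update_eq_self]

theorem fp_same (x : V) (y : V → Bool) : fp x y x = !y x := by
  unfold fp
  rw [Function.update_self]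

theorem fp_other {x z : V} (h : z ≠ x) (y : V → Bool) : fp x y z = y z := by
  unfold fp
  rw [Function.update_of_ne h]

theorem sg_not (b : Bool) : sg (!b) = -sg b := by
  cases b <;> simp [sg]

theorem sg_abs (b : Bool) : |sg b| = 1 := by
  cases b <;> simp [sg]

theorem sum_fp [Fintype V] (x : V) (F : (V → Bool) → ℝ) : ∑ y, F (fp x y) = ∑ y, F y :=
  Equiv.sum_comp (Function.Involutive.toPerm (fp x) (fp_fp x)) F

theorem pairs [Fintype V] (g : Finset V → ℝ) (hg : ∀ S, 0 ≤ g S) :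
    2 * ∑ S ∈ powersetCard 2 (univ : Finset V), g S ≤
      ∑ p ∈ (univ : Finset V).offDiag, g {p.1, p.2} := by
  have h : ∀ p ∈ (univ : Finset V).offDiag,
      ({p.1, p.2} : Finset V) ∈ powersetCard 2 (univ : Finset V) := by
    intro p hp
    rw [mem_powersetCard]
    exact ⟨subset_univ _, card_pair (mem_offDiag.1 hp).2.2⟩
  rw [← sum_fiberwise_of_maps_to h, mul_sum]
  refine sum_le_sum fun S hS => ?_
  obtain ⟨a, b, hab, rfl⟩ := card_eq_two.1 (mem_powersetCard.1 hS).2
  have hne : (a, b) ≠ (b, a) := fun h => hab (congrArg Prod.fst h)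
  calc 2 * g {a, b} = ∑ p ∈ ({(a, b), (b, a)} : Finset (V × V)), g {p.1, p.2} := by
        rw [sum_pair hne]
        show 2 * g {a, b} = g {a, b} + g {b, a}
        rw [pair_comm b a]
        ring
    _ ≤ _ := by
        refine sum_le_sum_of_subset_of_nonneg ?_ fun p _ _ => hg _
        intro p hp
        rw [mem_insert, mem_singleton] at hp
        rw [mem_filter, mem_offDiag]
        rcases hp with rfl | rfl
        · exact ⟨⟨mem_univ _, mem_univ _, hab⟩, rfl⟩
        · exact ⟨⟨mem_univ _, mem_univ _, hab.symm⟩, pair_comm b a⟩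

theorem hat_le [Fintype V] (F : (V → Bool) → ℝ) {x z : V} (hxz : x ≠ z) :
    4 * |hat F {x, z}| ≤ (∑ y, |dd x z F y|) / 2 ^ Fintype.card V := by
  obtain ⟨s, hs⟩ : ∃ s : (V → Bool) → ℝ, s = fun y => sg (y x) * sg (y z) := ⟨_, rfl⟩
  have s1 : ∀ y, s (fp x y) = -s y := by
    intro y
    rw [hs]
    show sg (fp x y x) * sg (fp x y z) = -(sg (y x) * sg (y z))
    rw [fp_same, fp_other hxz.symm, sg_not]
    ring
  have s2 : ∀ y, s (fp z y) = -s y := by
    intro y
    rw [hs]
    show sg (fp z y x) * sg (fp z y z) = -(sg (y x) * sg (y z))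
    rw [fp_same, fp_other hxz, sg_not]
    ring
  have sa : ∀ y, |s y| = 1 := by
    intro y
    rw [hs]
    show |sg (y x) * sg (y z)| = 1
    rw [abs_mul, sg_abs, sg_abs, one_mul]
  have e1 : ∑ y, F (fp x y) * s y = -∑ y, F y * s y := by
    rw [← sum_fp x (fun y => F y * s y), ← sum_neg_distrib]
    refine sum_congr rfl fun y _ => ?_
    rw [s1]
    ring
  have e2 : ∑ y, F (fp z y) * s y = -∑ y, F y * s y := by
    rw [← sum_fp z (fun y => F y * s y), ← sum_neg_distrib]
    refine sum_congr rfl fun y _ => ?_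
    rw [s2]
    ring
  have e3 : ∑ y, F (fp x (fp z y)) * s y = ∑ y, F y * s y := by
    rw [← sum_fp x (fun y => F y * s y), ← sum_fp z (fun y => F (fp x y) * s (fp x y))]
    refine sum_congr rfl fun y _ => ?_
    rw [s1, s2]
    ring
  have e4 : ∑ y, dd x z F y * s y = 4 * ∑ y, F y * s y := by
    have : ∀ y, dd x z F y * s y = F (fp x (fp z y)) * s y - F (fp x y) * s y -
        F (fp z y) * s y + F y * s y := by
      intro y
      unfold dd
      ring
    simp only [this]
    rw [sum_add_distrib, sum_sub_distrib, sum_sub_distrib, e1, e2, e3]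
    ring
  have e5 : hat F {x, z} = (∑ y, F y * s y) / 2 ^ Fintype.card V := by
    unfold hat
    congr 1
    refine sum_congr rfl fun y _ => ?_
    rw [prod_pair hxz, hs]
  have hp : (0 : ℝ) < 2 ^ Fintype.card V := by positivity
  rw [e5, abs_div, abs_of_pos hp, ← mul_div_assoc]
  refine div_le_div_of_nonneg_right ?_ hp.le
  have e6 : 4 * |∑ y, F y * s y| = |∑ y, dd x z F y * s y| := by
    rw [e4, abs_mul]
    norm_num
  rw [e6]
  refine (abs_sum_le_sum_abs _ _).trans (le_of_eq ?_)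
  refine sum_congr rfl fun y _ => ?_
  rw [abs_mul, sa, mul_one]

theorem sum_c4 [Fintype V] (x z : V) (F : (V → Bool) → ℝ) :
    ∑ y, c4 x z F y = 4 * ∑ y, F y := by
  unfold c4
  rw [sum_add_distrib, sum_add_distrib, sum_add_distrib, sum_fp x F, sum_fp z F,
    sum_fp z (fun y => F (fp x y)), sum_fp x F]
  ring

end GL2

open GL2 in
theorem pf_GL2 (hPTW : T_PTW) (hRSM : T_RSM) : T_GL2 := by
  intro V _ _ β k d q t hβ hk hc hd hq
  have hβ0 : 0 < β := lt_of_lt_of_le one_pos hβ
  have hp : (0 : ℝ) < 2 ^ Fintype.card V := by positivity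
  have hR : ∀ x z y, 0 ≤ t.rr β x z y := fun x z y =>
    ((hRSM V β t y hβ0).1 x z).1.trans ((hRSM V β t y hβ0).1 x z).2
  have h1 := pairs (fun S => |hat (t.sv β) S|) fun S => abs_nonneg _
  have h2 : ∀ p ∈ (univ : Finset V).offDiag, |hat (t.sv β) {p.1, p.2}| ≤
      2000 * β * (k : ℝ) ^ 2 * ((∑ y, t.rr β p.1 p.2 y) / 2 ^ Fintype.card V) := by
    intro p hpp
    have hne := (mem_offDiag.1 hpp).2.2
    have h3 := hat_le (t.sv β) hne
    have h4 : ∑ y, |dd p.1 p.2 (t.sv β) y| ≤
        ∑ y, 2000 * β * (k : ℝ) ^ 2 * c4 p.1 p.2 (t.rr β p.1 p.2) y :=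
      sum_le_sum fun y _ => hPTW V β k t y p.1 p.2 hβ hk hc hne
    rw [← mul_sum, sum_c4] at h4
    have h5 := div_le_div_of_nonneg_right h4 hp.le
    have h6 : 2000 * β * (k : ℝ) ^ 2 * (4 * ∑ y, t.rr β p.1 p.2 y) / 2 ^ Fintype.card V =
        4 * (2000 * β * (k : ℝ) ^ 2 * ((∑ y, t.rr β p.1 p.2 y) / 2 ^ Fintype.card V)) := by
      ring
    linarith
  have h3 : ∑ p ∈ (univ : Finset V).offDiag, |hat (t.sv β) {p.1, p.2}| ≤
      2000 * β * (k : ℝ) ^ 2 * (((d : ℝ) + 1) * (4 * (q : ℝ) ^ 2)) := by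
    refine (sum_le_sum h2).trans ?_
    rw [← mul_sum]
    refine mul_le_mul_of_nonneg_left ?_ (by positivity)
    rw [← sum_div, div_le_iff₀ hp]
    calc ∑ p ∈ (univ : Finset V).offDiag, ∑ y, t.rr β p.1 p.2 y ≤
          ∑ p : V × V, ∑ y, t.rr β p.1 p.2 y :=
          sum_le_sum_of_subset_of_nonneg (subset_univ _)
            fun p _ _ => sum_nonneg fun y _ => hR _ _ _
      _ = ∑ y, ∑ x, ∑ z, t.rr β x z y := by
          rw [sum_comm]
          refine sum_congr rfl fun y _ => ?_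
          rw [Fintype.sum_prod_type]
      _ ≤ ∑ y : V → Bool, ((d : ℝ) + 1) * (4 * (q : ℝ) ^ 2) := by
          refine sum_le_sum fun y _ => ((hRSM V β t y hβ0).2).trans ?_
          have hd' : (t.dp : ℝ) ≤ d := by exact_mod_cast hd
          have hq' : (t.wd : ℝ) ≤ q := by exact_mod_cast hq
          have h4 : (t.wd : ℝ) ^ 2 ≤ (q : ℝ) ^ 2 := pow_le_pow_left₀ (by positivity) hq' 2
          refine mul_le_mul (by linarith) (by linarith) (by positivity) (by positivity)
      _ = ((d : ℝ) + 1) * (4 * (q : ℝ) ^ 2) * 2 ^ Fintype.card V := by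
          rw [sum_const, card_univ, Fintype.card_fun, Fintype.card_bool, nsmul_eq_mul]
          push_cast
          ring
  have h4 : 2 * L12 (t.sv β) ≤ 2000 * β * (k : ℝ) ^ 2 * (((d : ℝ) + 1) * (4 * (q : ℝ) ^ 2)) :=
    h1.trans h3
  linarith

end Pool.Agent.H10.IPF
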