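import Pool.Agent.H66.IP.TC

/-!
# Board ipf_modules (MP_0f8dca_lc), row NDL: a random witness is not noticed
-/

set_option autoImplicit false

namespace Pool.Agent.H10.IPF

open Finset Pool.Agent.H6.NB Pool.Agent.H70.OQ Pool.Agent.H70.EH Pool.Agent.H70.EI
open Pool.Agent.H78.XQ Pool.Agent.H66.IP

theorem pf_NDL (hGTR : T_GTR) (hEXL : T_EXL) : T_NDL := by
  classical
  intro n G O hO hq
  obtain ⟨t, -, -, ht3, ht4⟩ := hGTR (Fin n → Bool) G O hO
  obtain ⟨a, ha0, ha1, ha2⟩ := hEXL (Fin n → Bool) t (fun _ => false)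
  have h1 : ∀ z : Fin n → Bool,
      G.val (O fun _ => false) - G.val (O fun x => decide (x = z)) ≤ a z := by
    intro z
    rw [← ht4, ← ht4]
    refine (ha2 _).trans ?_
    have h2 : univ.filter (fun x : Fin n → Bool => false ≠ decide (x = z)) = {z} := by
      ext x
      simp [eq_comm]
    rw [show (univ.filter fun x : Fin n → Bool => (fun _ : Fin n → Bool => false) x ≠
      (fun x => decide (x = z)) x) = {z} from h2, Finset.sum_singleton]
  refine (Finset.sum_le_sum fun z _ => h1 z).trans (ha1.trans ?_)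
  have hc : Fintype.card (Fin n → Bool) = 2 ^ n := by simp
  rw [hc]
  have h3 : 4 * t.wd ≤ 2 ^ n := le_trans (Nat.mul_le_mul_left 4 ht3) hq
  have h4 : (4 : ℝ) * t.wd ≤ 2 ^ n := by exact_mod_cast h3
  push_cast
  linarith

end Pool.Agent.H10.IPF
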